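import Pool.Agent.H66.CeAlg

/-! For the variety of countably many constants all `I_{V_n}` have the same degree. -/

namespace Pool.Agent.Results.MP_f76ce6_lc.Same

open Pool.Agent.H66.Acc Pool.Agent.H37

def S (n : ℕ) (q : ℕ × ℕ) : Prop :=
  th n ℕ q.1 (.inr q.2.unpair.1) (.inr q.2.unpair.2.unpair.1) ∧
    cnt (th n ℕ q.1) ≤ q.2.unpair.2.unpair.2

theorem re_S (n : ℕ) : REPred (S n) :=
  re_and (re_th (by fun_prop) (by fun_prop) (by fun_prop)) (re_cnt (by fun_prop) (by fun_prop))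

theorem iso_S {n e i : ℕ} : CIso n ℕ e i ↔ ∀ k, S n (e, k) ↔ S n (i, k) := by
  rw [ciso_iff]
  refine ⟨fun h k => by simp only [S, h.1, h.2], fun h => ⟨fun c d => ?_, ?_⟩⟩
  · simpa [S, cnt_le] using h (Nat.pair c (Nat.pair d n))
  · refine eq_of_forall_ge_iff fun m => ?_
    simpa [S, Setoid.refl'] using h (Nat.pair 0 (Nat.pair 0 m))

theorem red (n m : ℕ) : Red (CIso n ℕ) (CIso m ℕ) := by
  let T : ℕ → Fin m ⊕ ℕ → Prop := fun a u =>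
    (∃ i, u = .inl i) ∨ u = .inr 0 ∨ ∃ c, u = .inr (c + 1) ∧ S n (a, c)
  have hT : REPred fun q : ℕ × (Fin m ⊕ ℕ) => T q.1 q.2 :=
    re_or (re_of_exists (fun q (i : Fin m) => decide (q.2 = .inl i)) (by fun_prop) (by simp))
      (re_or (re_of_bool (fun q => decide (q.2 = .inr 0)) (by fun_prop) (by simp))
      (re_exists (re_and (re_of_bool (fun q => decide (q.1.2 = .inr (q.2 + 1))) (by fun_prop)
      (by simp)) (REPred.comp' (re_S n) (by fun_prop)))))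
  obtain ⟨f, f1, f2⟩ := idx (fun a => (⟨fun u v => u = v ∨ T a u ∧ T a v, fun _ => Or.inl rfl,
      fun h => h.imp .symm .symm, by
        rintro x y z (rfl | h) (rfl | k)
        exacts [Or.inl rfl, Or.inr k, Or.inr h, Or.inr ⟨h.1, k.2⟩]⟩ : Setoid (Fin m ⊕ ℕ)))
    (re_or (re_of_bool (fun q => decide (q.2.1 = q.2.2)) (by fun_prop) (by simp)) (re_and
      (REPred.comp' hT (g := fun q : ℕ × (Fin m ⊕ ℕ) × (Fin m ⊕ ℕ) => (q.1, q.2.1)) (by fun_prop))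
      (REPred.comp' hT (g := fun q : ℕ × (Fin m ⊕ ℕ) × (Fin m ⊕ ℕ) => (q.1, q.2.2)) (by fun_prop))))
  have r : ∀ a u v, th m ℕ (f a) u v ↔ u = v ∨ T a u ∧ T a v := fun a u v => by rw [f2]; rfl
  have c0 : ∀ a, cnt (th m ℕ (f a)) = 0 := fun a => by
    rw [cnt, Set.eq_empty_of_forall_notMem (s := _ᶜ) fun x hx => ?_, Set.ncard_empty]
    obtain ⟨i, rfl⟩ := sub _ hx
    exact hx ⟨0, Quotient.sound ((r _ _ _).2 (Or.inr (by simp [T])))⟩
  refine ⟨f, f1.computable, fun x y => ?_⟩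
  rw [iso_S, ciso_iff]
  simp only [r, c0, and_true]
  exact ⟨fun h c d => by simp only [T, h], fun h k => by simpa [T] using h 0 (k + 1)⟩

theorem pi2 (n : ℕ) : ∃ R : (ℕ × ℕ) × ℕ → Prop, REPred R ∧
    ∀ x y, CIso n ℕ x y ↔ ∀ z, R ((x, y), z) := by
  obtain ⟨D, d1, -, d2⟩ := re_stage (re_S n)
  refine ⟨fun q => (D (q.1.1, q.2.unpair.1) q.2.unpair.2 = false ∨ S n (q.1.2, q.2.unpair.1)) ∧
    (D (q.1.2, q.2.unpair.1) q.2.unpair.2 = false ∨ S n (q.1.1, q.2.unpair.1)), re_and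
    (re_or (re_of_bool (fun q => !D (q.1.1, q.2.unpair.1) q.2.unpair.2) (CI.not (d1.comp
      (g := fun q : (ℕ × ℕ) × ℕ => ((q.1.1, q.2.unpair.1), q.2.unpair.2)) (by fun_prop))) (by simp))
      (REPred.comp' (re_S n) (by fun_prop)))
    (re_or (re_of_bool (fun q => !D (q.1.2, q.2.unpair.1) q.2.unpair.2) (CI.not (d1.comp
      (g := fun q : (ℕ × ℕ) × ℕ => ((q.1.2, q.2.unpair.1), q.2.unpair.2)) (by fun_prop))) (by simp))
      (REPred.comp' (re_S n) (by fun_prop))), fun x y => iso_S.trans ⟨fun h z =>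
    ⟨(Bool.eq_false_or_eq_true _).symm.imp_right fun k => (h _).1 ((d2 _).2 ⟨_, k⟩),
     (Bool.eq_false_or_eq_true _).symm.imp_right fun k => (h _).2 ((d2 _).2 ⟨_, k⟩)⟩,
    fun h k => ⟨fun a => ?_, fun a => ?_⟩⟩⟩ <;> obtain ⟨s, hs⟩ := (d2 _).1 a
  · simpa [hs] using (h (Nat.pair k s)).1
  · simpa [hs] using (h (Nat.pair k s)).2

theorem result (n : ℕ) : (∀ m, Red (CIso n ℕ) (CIso m ℕ)) ∧ Sigma3 (CIso n ℕ) ∧
    ¬Complete3 (CIso n ℕ) ∧ ∀ E, Complete3 E → Red (CIso n ℕ) E ∧ ¬Red E (CIso n ℕ) := by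
  obtain ⟨R, h1, h2⟩ := pi2 n
  have s3 : Sigma3 (CIso n ℕ) := by
    obtain ⟨D, d1, -, d2⟩ := re_stage h1
    exact ⟨_, computablePred_of (fun q : (ℕ × ℕ) × ℕ × ℕ × ℕ => D (q.1, q.2.2.1) q.2.2.2)
      (d1.comp (g := fun q : (ℕ × ℕ) × ℕ × ℕ × ℕ => ((q.1, q.2.2.1), q.2.2.2)) (by fun_prop))
      fun _ => Iff.rfl, fun x y => by simp only [h2, d2, exists_const]⟩
  have nc : ¬Complete3 (CIso n ℕ) := not_complete fun f hf e =>
    ⟨_, REPred.comp' h1 (g := fun q : ℕ × ℕ => ((f q.1, e), q.2)) (by fun_prop), fun x => h2 _ _⟩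
  refine ⟨red n, s3, nc, fun E hE => ⟨hE.2 _ ⟨fun _ => iso_S.2 fun _ => Iff.rfl,
    fun h => iso_S.2 fun k => (iso_S.1 h k).symm, fun h h' => iso_S.2 fun k =>
      (iso_S.1 h k).trans (iso_S.1 h' k)⟩ s3, fun ⟨f, f1, f2⟩ => nc ⟨s3, fun F k1 k2 => ?_⟩⟩⟩
  obtain ⟨g, g1, g2⟩ := hE.2 F k1 k2
  exact ⟨f ∘ g, f1.comp g1, fun x y => (g2 x y).trans (f2 _ _)⟩

end Pool.Agent.Results.MP_f76ce6_lc.Same
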